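import Pool.Agent.V11288.QU.Sat

/-!
# Meromorphic continuation of `L_S(s, π, ρ)` and the traces of the Satake classes

Let `π` be an automorphic representation of `G = GSp_{2n}` (or of any group), `ρ` a representation of the
`L`-group of degree `m`, and let `A_p = ρ(Satake class of π_p)`, a matrix determined up to conjugation, for the
primes `p ∈ P = (primes not in S)`.  All that is used is that `(A_p)` is a family of complex `m × m` matrices
whose eigenvalues have absolute value at most `p^θ` for some real `θ` (Langlands).  So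

`L(s) = L_S(s, π, ρ) = ∏_{p ∈ P} det (1 - A_p p^{-s})⁻¹`, `Re s > θ + 1`.

Fix any `c ∈ ℂ` (think of a point to the left of the half plane of convergence), a finite set `D ⊂ ℂ` with
multiplicities `n(z) ∈ ℤ` (`z ∈ D`), and `r ∈ ℤ`.  For `Y > 1` let

`log P(Y) = ∑_{p^k ≤ Y} tr(A_p^k) / (k p^{kc})`

(the logarithm of the partial Euler product at `c`, a complex number),
`Ein(w) = ∑_{k ≥ 1} w^k/(k k!) = ∫_0^w (e^v - 1) dv/v`, and

`I(q) = ∫_1^∞ |log P(Y) + ∑_{z ∈ D} n(z) Ein((z - c) log Y) + (r + ∑ n(z)) (γ + log log Y) - q|² dY/Y`.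

1. Let `A₀ ∈ ℂ^×` and `C ≥ 0`.  There is a `q` with `e^q = A₀` and `I(q) ≤ C` IF AND ONLY IF there is a
   holomorphic function `H` on the half plane `Re s > Re c` with `∫ |H(x + it)|² dt ≤ 2πC` for all
   `x > Re c` (that is, `H` is in the Hardy space `H²`, with norm at most `√C`) and

   `L(s) = A₀ (s - c)^r ∏_{z ∈ D} (s - z)^{n(z)} e^{(s - c) H(s)}` for `Re s` large.

   So the mean square deviation of the partial sums of the traces is exactly the square of the norm of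
   `H(s) = log (L(s) / (A₀ (s - c)^r ∏ (s - z)^{n(z)})) / (s - c)` in the Hardy space.

2. In particular, if `I(q)` is finite for some `q`, then `L` has a meromorphic continuation to `Re s > Re c`,
   and the order of the continuation at a point `s` is `n(s)` if `s ∈ D` and `0` if not.

No continuation, functional equation or bound for `L` is assumed; also `D` may be chosen freely, so this
expresses meromorphic continuation to a half plane with finitely many zeros and poles there (for instance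
with the poles on `Re s = 1` and the exceptional zeros only).

Proof.  The Laplace transforms of the partial sums, of `Ein(wu)` and of `γ + log u` are `log L(c + s)/s`,
`- log(1 - w/s)/s` and `- log s/s`; then the theorem of Paley and Wiener, where from the half plane to the line
one shows that a function in the Hardy space which is a Laplace transform far to the right is one everywhere
(library `Pool.Agent.V11288.HS.PW`).  The branch of the logarithm is the constant `q`.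
-/

set_option autoImplicit false

namespace Pool.Agent.Results.MP_eea520_nt.ContinuationByTraces

open Filter Topology MeasureTheory Set

variable {P : Set Nat.Primes} {m : ℕ}

/-- The eigenvalues of `A_p` have absolute value at most `p^θ`. -/
def Bounded (θ : ℝ) (A : P → Matrix (Fin m) (Fin m) ℂ) : Prop :=
  ∀ p : P, ∀ x ∈ (A p).charpoly.roots, ‖x‖ ≤ ((p.1 : ℕ) : ℝ) ^ θ

/-- `L(s) = ∏_p det (1 - p^{-s} A_p)⁻¹`. -/
noncomputable def L (A : P → Matrix (Fin m) (Fin m) ℂ) (s : ℂ) : ℂ :=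
  ∏' p : P, ((1 - ((p.1 : ℕ) : ℂ) ^ (-s) • A p).det)⁻¹

/-- `tr M^k`, the sum of the `k`-th powers of the eigenvalues of `M`. -/
noncomputable def powerSum (M : Matrix (Fin m) (Fin m) ℂ) (k : ℕ) : ℂ :=
  (M.charpoly.roots.map fun x => x ^ k).sum

/-- `log P(Y)`: the sum of `tr(A_p^k) / (k p^{kc})` over `p ∈ P` and `k ≥ 1` (here `k = i.2 + 1`) with
`p^k ≤ Y` (a finite sum). -/
noncomputable def partialLog (A : P → Matrix (Fin m) (Fin m) ℂ) (c : ℂ) (Y : ℝ) : ℂ :=
  ∑' i : P × ℕ, if ((i.1.1 : ℕ) : ℝ) ^ (i.2 + 1) ≤ Y then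
    powerSum (A i.1) (i.2 + 1) / (((i.2 : ℂ) + 1) * ((i.1.1 : ℕ) : ℂ) ^ (((i.2 : ℂ) + 1) * c)) else 0

/-- `Ein(z) = ∑_{k ≥ 1} z^k/(k k!)`. -/
noncomputable def Ein (z : ℂ) : ℂ := ∑' k : ℕ, z ^ (k + 1) / (((k : ℂ) + 1) * ((k + 1).factorial : ℂ))

/-- `log P(Y) + ∑_{z ∈ D} n(z) Ein((z - c) log Y) + (r + ∑ n(z)) (γ + log log Y) - q`. -/
noncomputable def deviation (A : P → Matrix (Fin m) (Fin m) ℂ) (c : ℂ) (D : Finset ℂ) (n : ℂ → ℤ) (r : ℤ)
    (q : ℂ) (Y : ℝ) : ℂ :=
  partialLog A c Y + (∑ z ∈ D, (n z : ℂ) * Ein ((z - c) * (Real.log Y : ℂ))) +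
    ((r + ∑ z ∈ D, n z : ℤ) : ℂ) * ((Real.eulerMascheroniConstant + Real.log (Real.log Y) : ℝ) : ℂ) - q

/-- `I(q) = ∫_1^∞ |deviation|² dY/Y ∈ [0, ∞]`. -/
noncomputable def meanSquare (A : P → Matrix (Fin m) (Fin m) ℂ) (c : ℂ) (D : Finset ℂ) (n : ℂ → ℤ) (r : ℤ)
    (q : ℂ) : ENNReal :=
  ∫⁻ Y in Ioi (1 : ℝ), ENNReal.ofReal (‖deviation A c D n r q Y‖ ^ 2 / Y)

/-- `H` is in the Hardy space of the half plane `Re s > Re c`, with norm at most `√C`, and
`L(s) = A₀ (s - c)^r ∏_{z ∈ D} (s - z)^{n(z)} e^{(s - c) H(s)}` for `Re s` large. -/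
structure Continuation (A : P → Matrix (Fin m) (Fin m) ℂ) (c : ℂ) (D : Finset ℂ) (n : ℂ → ℤ) (r : ℤ)
    (A₀ : ℂ) (C : ℝ) (H : ℂ → ℂ) : Prop where
  holo : ∀ s : ℂ, c.re < s.re → DifferentiableAt ℂ H s
  hardy : ∀ x : ℝ, c.re < x →
    ∫⁻ t : ℝ, ENNReal.ofReal (‖H (x + t * Complex.I)‖ ^ 2) ≤ ENNReal.ofReal (2 * Real.pi * C)
  eq : ∃ b : ℝ, ∀ s : ℂ, b < s.re →
    L A s = A₀ * (s - c) ^ r * (∏ z ∈ D, (s - z) ^ n z) * Complex.exp ((s - c) * H s)

open Pool.Agent.V11288 Pool.Agent.V11288.QU Pool.Agent.V11288.QU.Cx Pool.Agent.V11288.QU.Sat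

variable {θ : ℝ} {A : P → Matrix (Fin m) (Fin m) ℂ}

theorem L_eq (hA : Bounded θ A) (c : ℂ) {s : ℂ} (hs : θ + 1 < (s + c).re) :
    Complex.exp (∑' i : P × ℕ, aP A c i * Complex.exp (-(s * lamP i))) = L A (s + c) := by
  rw [aP_sum]
  exact (hasProdP hA hs).tprod_eq.symm

theorem partialLog_eq (c : ℂ) {Y : ℝ} (hY : 1 < Y) : partialLog A c Y = Sc lamP (aP A c) (Real.log Y) := by
  unfold partialLog Sc
  refine tsum_congr fun i => ?_
  have h2 := Sat.two_le i.1
  have h0 : (0 : ℝ) < ((i.1.1 : ℕ) : ℝ) := by linarith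
  have e1 : ((i.1.1 : ℕ) : ℝ) ^ (i.2 + 1) ≤ Y ↔ lamP i ≤ Real.log Y := by
    have e2 : lamP i = Real.log (((i.1.1 : ℕ) : ℝ) ^ (i.2 + 1)) := by
      rw [Real.log_pow]
      unfold lamP
      push_cast
      rfl
    rw [e2]
    have h3 : (0 : ℝ) < ((i.1.1 : ℕ) : ℝ) ^ (i.2 + 1) := pow_pos h0 _
    exact (Real.log_le_log_iff h3 (by linarith)).symm
  simp only [e1]
  split_ifs
  · have hc : ((i.1.1 : ℕ) : ℂ) ≠ 0 := by exact_mod_cast h0.ne'
    have e3 : Complex.exp (-(c * lamP i)) = (((i.1.1 : ℕ) : ℂ) ^ (((i.2 : ℂ) + 1) * c))⁻¹ := by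
      have e4 : ((i.1.1 : ℕ) : ℂ) ^ (((i.2 : ℂ) + 1) * c) = (((i.1.1 : ℕ) : ℂ) ^ c) ^ (i.2 + 1) := by
        rw [← Complex.cpow_nat_mul]
        congr 1
        push_cast
        ring
      rw [xP, e4, Complex.cpow_neg, inv_pow]
    unfold powerSum aP cP
    rw [App.enum_sum, e3]
    field_simp
  · rfl

/-- the shifted set -/
noncomputable def sD (D : Finset ℂ) (c : ℂ) : Finset ℂ := D.map (Equiv.subRight c).toEmbedding

theorem sum_sD (D : Finset ℂ) (c : ℂ) {M : Type} [AddCommMonoid M] (f : ℂ → M) :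
    ∑ z ∈ sD D c, f z = ∑ z ∈ D, f (z - c) := by
  unfold sD
  rw [Finset.sum_map]
  rfl

theorem prod_sD (D : Finset ℂ) (c : ℂ) (f : ℂ → ℂ) : ∏ z ∈ sD D c, f z = ∏ z ∈ D, f (z - c) := by
  unfold sD
  rw [Finset.prod_map]
  rfl

theorem ms_eq (c : ℂ) (D : Finset ℂ) (n : ℂ → ℤ) (r : ℤ) (q : ℂ) : meanSquare A c D n r q =
    ∫⁻ u : ℝ, ‖kk lamP (aP A c) (sD D c) (fun z => n (z + c)) (r + ∑ z ∈ sD D c, n (z + c)) q u‖ₑ ^ 2 := by
  set k : ℝ → ℂ := kk lamP (aP A c) (sD D c) (fun z => n (z + c)) (r + ∑ z ∈ sD D c, n (z + c)) q with hk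
  have e1 : ∫⁻ u : ℝ, ‖k u‖ₑ ^ 2 = ∫⁻ u in Ioi (0 : ℝ), ENNReal.ofReal (‖k u‖ ^ 2) := by
    rw [← lintegral_indicator measurableSet_Ioi]
    refine lintegral_congr fun u => ?_
    rcases lt_or_ge 0 u with hu | hu
    · rw [indicator_of_mem (show u ∈ Ioi (0 : ℝ) from hu), ← ofReal_norm, ENNReal.ofReal_pow (norm_nonneg _)]
    · rw [indicator_of_notMem (show u ∉ Ioi (0 : ℝ) from not_lt.2 hu), hk, kk_zero _ _ _ _ hu]
      simp
  rw [e1, ← HS.cov_lin (fun u => ‖k u‖ ^ 2)]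
  unfold meanSquare
  refine setLIntegral_congr_fun measurableSet_Ioi fun Y hY => ?_
  have hY1 : (1 : ℝ) < Y := hY
  have e2 : deviation A c D n r q Y = k (Real.log Y) := by
    rw [hk]
    unfold kk
    rw [indicator_of_mem (show Real.log Y ∈ Ioi (0 : ℝ) from Real.log_pos hY1)]
    unfold deviation
    rw [partialLog_eq c hY1, sum_sD, sum_sD]
    simp only [sub_add_cancel]
    rfl
  simp only [e2]

theorem shift_int (H : ℂ → ℂ) (c : ℂ) (x : ℝ) :
    ∫⁻ t : ℝ, ‖H (x + t * Complex.I + c)‖ₑ ^ 2 =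
      ∫⁻ t : ℝ, ENNReal.ofReal (‖H (((x + c.re : ℝ) : ℂ) + t * Complex.I)‖ ^ 2) := by
  rw [← lintegral_add_right_eq_self
    (fun t : ℝ => ENNReal.ofReal (‖H (((x + c.re : ℝ) : ℂ) + t * Complex.I)‖ ^ 2)) c.im]
  refine lintegral_congr fun t => ?_
  rw [← ofReal_norm, ENNReal.ofReal_pow (norm_nonneg _)]
  have e : (x : ℂ) + t * Complex.I + c =
      ((x + c.re : ℝ) : ℂ) + ((t + c.im : ℝ) : ℂ) * Complex.I := by
    conv_lhs => rw [← Complex.re_add_im c]
    push_cast
    ring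
  rw [e]

theorem crit' (hA : Bounded θ A) (c : ℂ) (D : Finset ℂ) (n : ℂ → ℤ) (r : ℤ) {A₀ : ℂ} (h0 : A₀ ≠ 0) {C : ℝ}
    (hC : 0 ≤ C) : (∃ q : ℂ, Complex.exp q = A₀ ∧ meanSquare A c D n r q ≤ ENNReal.ofReal C) ↔
      ∃ H : ℂ → ℂ, Continuation A c D n r A₀ C H := by
  simp only [ms_eq]
  rw [crit (serP hA c) (sD D c) (fun z => n (z + c)) r h0 hC]
  constructor
  · rintro ⟨H, h1, h2, b, h3⟩
    refine ⟨fun s => H (s - c), fun s hs => ?_, fun x hx => ?_, max b (θ + 1 - c.re) + c.re, fun s hs => ?_⟩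
    · exact DifferentiableAt.comp (g := H) (f := fun s : ℂ => s - c) s
        (h1 _ (by rw [Complex.sub_re]; linarith)) (by fun_prop)
    · have h4 := h2 (x - c.re) (by linarith)
      have h5 := shift_int (fun s => H (s - c)) c (x - c.re)
      simp only [add_sub_cancel_right, sub_add_cancel] at h5
      rw [← h5]
      exact h4
    · have e1 : b < (s - c).re := by
        rw [Complex.sub_re]
        have := le_max_left b (θ + 1 - c.re)
        linarith
      have e2 : θ + 1 < (s - c + c).re := by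
        rw [sub_add_cancel]
        have := le_max_right b (θ + 1 - c.re)
        linarith
      have e3 := h3 (s - c) e1
      rw [L_eq hA c e2, sub_add_cancel, prod_sD] at e3
      rw [e3]
      simp only [sub_add_cancel, sub_sub_sub_cancel_right]
  · rintro ⟨H, ⟨h1, h2, b, h3⟩⟩
    refine ⟨fun s => H (s + c), fun s hs => ?_, fun x hx => ?_, max b (θ + 1) - c.re, fun s hs => ?_⟩
    · exact DifferentiableAt.comp (g := H) (f := fun s : ℂ => s + c) s
        (h1 _ (by rw [Complex.add_re]; linarith)) (by fun_prop)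
    · rw [shift_int]
      exact h2 (x + c.re) (by linarith)
    · have e1 : b < (s + c).re := by
        rw [Complex.add_re]
        have := le_max_left b (θ + 1)
        linarith
      have e2 : θ + 1 < (s + c).re := by
        rw [Complex.add_re]
        have := le_max_right b (θ + 1)
        linarith
      rw [L_eq hA c e2, h3 _ e1, prod_sD]
      simp only [add_sub_cancel_right, sub_add_cancel]
      have e4 : ∏ z ∈ D, (s + c - z) ^ n z = ∏ z ∈ D, (s - (z - c)) ^ n z :=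
        Finset.prod_congr rfl fun z _ => by
          congr 1
          ring
      rw [e4]

/-- the order of the continuation -/
theorem order_of {c : ℂ} {D : Finset ℂ} {n : ℂ → ℤ} {r : ℤ} {A₀ : ℂ} (h0 : A₀ ≠ 0) {H : ℂ → ℂ}
    (hH : ∀ s : ℂ, c.re < s.re → DifferentiableAt ℂ H s) {s : ℂ} (hs : c.re < s.re) :
    MeromorphicAt (fun s => A₀ * (s - c) ^ r * (∏ z ∈ D, (s - z) ^ n z) * Complex.exp ((s - c) * H s)) s ∧
    meromorphicOrderAt
      (fun s => A₀ * (s - c) ^ r * (∏ z ∈ D, (s - z) ^ n z) * Complex.exp ((s - c) * H s)) s =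
        if s ∈ D then (n s : WithTop ℤ) else 0 := by
  classical
  have hU : IsOpen {z : ℂ | c.re < z.re} := isOpen_lt continuous_const Complex.continuous_re
  have hHa : AnalyticAt ℂ H s :=
    DifferentiableOn.analyticOnNhd (fun z hz => (hH z hz).differentiableWithinAt) hU s hs
  have hsc : s - c ≠ 0 := by
    intro h
    have h1 : s = c := sub_eq_zero.1 h
    rw [h1] at hs
    exact lt_irrefl _ hs
  -- the analytic factor
  set g : ℂ → ℂ := fun w => A₀ * (w - c) ^ r * (∏ z ∈ D.erase s, (w - z) ^ n z) *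
    Complex.exp ((w - c) * H w) with hg
  have hga : AnalyticAt ℂ g s := by
    have a1 : AnalyticAt ℂ (fun w : ℂ => (w - c) ^ r) s :=
      (analyticAt_id.sub analyticAt_const).zpow hsc
    have a2 : AnalyticAt ℂ (fun w : ℂ => ∏ z ∈ D.erase s, (w - z) ^ n z) s := by
      refine Finset.analyticAt_fun_prod _ fun z hz => ?_
      refine (analyticAt_id.sub analyticAt_const).zpow ?_
      exact sub_ne_zero.2 (Finset.ne_of_mem_erase hz).symm
    have a3 : AnalyticAt ℂ (fun w : ℂ => Complex.exp ((w - c) * H w)) s :=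
      ((analyticAt_id.sub analyticAt_const).mul hHa).cexp
    exact ((analyticAt_const.mul a1).mul a2).mul a3
  have hg0 : g s ≠ 0 := by
    rw [hg]
    refine mul_ne_zero (mul_ne_zero (mul_ne_zero h0 (zpow_ne_zero _ hsc)) ?_) (Complex.exp_ne_zero _)
    exact Finset.prod_ne_zero_iff.2 fun z hz =>
      zpow_ne_zero _ (sub_ne_zero.2 (Finset.ne_of_mem_erase hz).symm)
  set k : ℤ := if s ∈ D then n s else 0 with hk
  have hprod : ∀ w : ℂ, A₀ * (w - c) ^ r * (∏ z ∈ D, (w - z) ^ n z) * Complex.exp ((w - c) * H w) =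
      (w - s) ^ k * g w := by
    intro w
    rw [hg, hk]
    by_cases hD : s ∈ D
    · rw [if_pos hD, ← Finset.mul_prod_erase D (fun z => (w - z) ^ n z) hD]
      ring
    · rw [if_neg hD, Finset.erase_eq_of_notMem hD, zpow_zero, one_mul]
  have hmer : MeromorphicAt (fun s => A₀ * (s - c) ^ r * (∏ z ∈ D, (s - z) ^ n z) *
      Complex.exp ((s - c) * H s)) s := by
    have h1 : (fun s => A₀ * (s - c) ^ r * (∏ z ∈ D, (s - z) ^ n z) * Complex.exp ((s - c) * H s)) =
        fun w => (w - s) ^ k * g w := funext hprod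
    rw [h1]
    exact (((MeromorphicAt.id s).sub (MeromorphicAt.const s s)).zpow k).mul hga.meromorphicAt
  refine ⟨hmer, ?_⟩
  have h2 : meromorphicOrderAt (fun s => A₀ * (s - c) ^ r * (∏ z ∈ D, (s - z) ^ n z) *
      Complex.exp ((s - c) * H s)) s = k :=
    (meromorphicOrderAt_eq_int_iff hmer).2 ⟨g, hga, hg0, Eventually.of_forall fun w => hprod w⟩
  rw [h2, hk]
  split_ifs
  · rfl
  · rfl

open scoped Classical in
/-- **Meromorphic continuation of Euler products with matrix coefficients and the partial sums of the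
traces.** -/
theorem result (P : Set Nat.Primes) (m : ℕ) (A : P → Matrix (Fin m) (Fin m) ℂ) (θ : ℝ) (hA : Bounded θ A)
    (c : ℂ) (D : Finset ℂ) (n : ℂ → ℤ) (r : ℤ) :
    (∀ (A₀ : ℂ) (C : ℝ), A₀ ≠ 0 → 0 ≤ C →
      ((∃ q : ℂ, Complex.exp q = A₀ ∧ meanSquare A c D n r q ≤ ENNReal.ofReal C) ↔
        ∃ H : ℂ → ℂ, Continuation A c D n r A₀ C H)) ∧
    ∀ q : ℂ, meanSquare A c D n r q < ⊤ → ∃ M : ℂ → ℂ, (∃ b : ℝ, ∀ s : ℂ, b < s.re → M s = L A s) ∧
      ∀ s : ℂ, c.re < s.re → MeromorphicAt M s ∧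
        meromorphicOrderAt M s = if s ∈ D then (n s : WithTop ℤ) else 0 := by
  refine ⟨fun A₀ C h0 hC => crit' hA c D n r h0 hC, fun q hq => ?_⟩
  have h1 : meanSquare A c D n r q ≤ ENNReal.ofReal (meanSquare A c D n r q).toReal := by
    rw [ENNReal.ofReal_toReal hq.ne]
  obtain ⟨H, h2, -, b, h3⟩ := (crit' hA c D n r (Complex.exp_ne_zero q) ENNReal.toReal_nonneg).1 ⟨q, rfl, h1⟩
  refine ⟨fun s => Complex.exp q * (s - c) ^ r * (∏ z ∈ D, (s - z) ^ n z) * Complex.exp ((s - c) * H s),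
    ⟨b, fun s hs => (h3 s hs).symm⟩, fun s hs => ?_⟩
  obtain ⟨h4, h5⟩ := order_of (D := D) (n := n) (r := r) (Complex.exp_ne_zero q) h2 hs
  refine ⟨h4, ?_⟩
  rw [h5]

end Pool.Agent.Results.MP_eea520_nt.ContinuationByTraces
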