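import Pool.Agent.V11291.GS.Euler

/-!
# Meromorphic continuation of the L-functions of `GSp(2n)` and Gaussian sums over prime powers

Let `π` be an automorphic representation of `GSp_{2n}(𝔸)`, unramified at the primes `p ∉ S`, with Satake classes
`A_p` in `^LG = GSpin_{2n+1}(ℂ)`, and let `ρ` be a representation of `^LG` of dimension `r`. The class `A_p` is given
by an element `(a_{p,0}, ..., a_{p,n})` of the maximal torus `(ℂ^×)^{n+1}` of `^LG`, `ρ` by its weights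
`w_1, ..., w_r ∈ ℤ^{n+1}`: the eigenvalues of `ρ(A_p)` are `∏_j a_{p,j}^{w_{i,j}}` (for the spin representation
`r = 2^n` and the weights are the `(1, ε_1, ..., ε_n)`, `ε_j ∈ {0, 1}`). Nothing is used about `π` except that the
parameters are polynomially bounded, `p^{-c} ≤ |a_{p,j}| ≤ p^c`, which is known for every automorphic `π`
(Langlands), so that the Euler product `L_S(s, π, ρ)` converges in some half plane.

For real `A ≥ 0` and `T > 0` consider the absolutely convergent Gaussian sum over the prime powers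

`G_A(T) = (4πT)^{-1/2} ∑_{p ∉ S, k ≥ 1} tr ρ(A_p^k) (log p) p^{kA} exp(-(k log p)² / (4T))`.

(1) For every `A ≥ 0` and every finite divisor `∑ m(β) [β]` in the sector `|Im s| < Re s + A` (to the left of the
half plane of convergence): `L_S(s, π, ρ)` has a meromorphic continuation to the sector with exactly this divisor of
zeros and poles IF AND ONLY IF

`G_A(T) = -∑_β m(β) exp((β + A)² T) + O(exp(ε T))`, `T → ∞`, for every `ε > 0`.

(2) Consequently `L_S(s, π, ρ)` has a meromorphic continuation to `ℂ` (the question) IF AND ONLY IF for every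
`A ≥ 0` (equivalently: for arbitrarily large `A`) the Gaussian sum `G_A(T)` has such an expansion with some finite
divisor.

(3) In this case the divisor in the expansion of `G_A(T)` is the divisor of the zeros and poles of
`L_S(s, π, ρ)` in the sector `|Im s| < Re s + A`.

No growth condition, no functional equation, no zero-free region and no Riemann hypothesis is assumed; in particular
the continuation in (2) may be of infinite order. The sectors exhaust the plane as `A → ∞`.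

The proof: the Laplace transform of `G_A(T) / T` is `log L_S(√v - A, π, ρ)`. In the half plane `Re v > 0` the
function `√v - A` runs through the sector, and `log L_S(√v - A, π, ρ)` is `O(exp(-c √|v|))` for large `|v|`, as
`Re √v` tends to infinity with `|v|`. So the line of integration of the inverse Laplace transform of the derivative
can be shifted to `Re v = ε` without any assumption on the growth of the continuation.
-/

set_option autoImplicit false

namespace Pool.Agent.Results.MP_eea520_nt.GaussianPrimeSums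

open Filter Topology Set

/-- The primes outside `S`. -/
abbrev UP (S : Finset Nat.Primes) := {p : Nat.Primes // p ∉ S}

variable {n r : ℕ} {S : Finset Nat.Primes}

/-- The parameters are polynomially bounded. -/
def Poly (a : UP S → Fin (n + 1) → ℂ) : Prop :=
  ∃ c : ℝ, ∀ p j, (p.1 : ℝ) ^ (-c) ≤ ‖a p j‖ ∧ ‖a p j‖ ≤ (p.1 : ℝ) ^ c

/-- The eigenvalues of `ρ(A_p)`: `a` are the Satake parameters, `W` the weights of `ρ`. -/
noncomputable def ev (a : UP S → Fin (n + 1) → ℂ) (W : Fin r → Fin (n + 1) → ℤ) (p : UP S)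
    (i : Fin r) : ℂ := ∏ j, a p j ^ W i j

/-- `tr ρ(A_p^k)`. -/
noncomputable def tr (a : UP S → Fin (n + 1) → ℂ) (W : Fin r → Fin (n + 1) → ℤ) (p : UP S)
    (k : ℕ) : ℂ := ∑ i, ev a W p i ^ k

/-- The Euler factor `det(1 - ρ(A_p) p^{-s})⁻¹`. -/
noncomputable def factor (a : UP S → Fin (n + 1) → ℂ) (W : Fin r → Fin (n + 1) → ℤ) (p : UP S)
    (s : ℂ) : ℂ := ∏ i, (1 - ev a W p i * ((p.1 : ℕ) : ℂ) ^ (-s))⁻¹

/-- `y` is the value of the Euler product `L_S(s, π, ρ)`. -/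
def IsL (a : UP S → Fin (n + 1) → ℂ) (W : Fin r → Fin (n + 1) → ℤ) (s y : ℂ) : Prop :=
  HasProd (fun p : UP S => factor a W p s) y

/-- The sector `|Im s| < Re s + A`. -/
def Sector (A : ℝ) : Set ℂ := {s | |s.im| < s.re + A}

/-- The Gaussian sum `G_A(T)`. -/
noncomputable def gauss (a : UP S → Fin (n + 1) → ℂ) (W : Fin r → Fin (n + 1) → ℤ) (A T : ℝ) : ℂ :=
  ((Real.sqrt (4 * Real.pi * T))⁻¹ : ℝ) * ∑' q : UP S × ℕ, tr a W q.1 (q.2 + 1) *
    (Real.log (q.1.1 : ℕ) * ((q.1.1 : ℕ) : ℝ) ^ (A * (q.2 + 1)) *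
      Real.exp (-(((q.2 + 1) * Real.log (q.1.1 : ℕ)) ^ 2 / (4 * T))) : ℝ)

/-- The divisor `∑ m(β) [β]`, `β ∈ Z`, lies in the sector, and in `Re s ≤ σ`. -/
def InSector (σ A : ℝ) (Z : Finset ℂ) : Prop := ∀ β ∈ Z, β ∈ Sector A ∧ β.re ≤ σ

/-- `G_A(T) = -∑_β m(β) exp((β + A)² T) + O(exp(ε T))` for every `ε > 0`. -/
def Expansion (a : UP S → Fin (n + 1) → ℂ) (W : Fin r → Fin (n + 1) → ℤ) (A : ℝ) (Z : Finset ℂ)
    (m : ℂ → ℤ) : Prop :=
  ∀ ε : ℝ, 0 < ε → ∃ C : ℝ, ∀ᶠ T : ℝ in atTop,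
    ‖gauss a W A T + ∑ β ∈ Z, (m β : ℂ) * Complex.exp ((β + A) ^ 2 * T)‖ ≤ C * Real.exp (ε * T)

/-- `L_S(s, π, ρ)` converges for `Re s > σ`, and has a meromorphic continuation to the union of this half plane and
the sector with the divisor `∑ m(β) [β]`, `β ∈ Z`: it is `H(s) ∏_{β ∈ Z} (s - β)^{m(β)}` with a function `H`,
holomorphic and without zeros in the union. -/
def ContinuesWith (a : UP S → Fin (n + 1) → ℂ) (W : Fin r → Fin (n + 1) → ℤ) (σ A : ℝ)
    (Z : Finset ℂ) (m : ℂ → ℤ) : Prop :=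
  ∃ H : ℂ → ℂ, (∀ s : ℂ, s ∈ Sector A ∨ σ < s.re → DifferentiableAt ℂ H s ∧ H s ≠ 0) ∧
    ∀ s : ℂ, σ < s.re → IsL a W s (H s * ∏ β ∈ Z, (s - β) ^ m β)

/-- `f` is a meromorphic continuation of `L_S(s, π, ρ)` to `ℂ`. -/
def IsContinuation (a : UP S → Fin (n + 1) → ℂ) (W : Fin r → Fin (n + 1) → ℤ) (f : ℂ → ℂ) : Prop :=
  MeromorphicOn f univ ∧ ∃ σ : ℝ, ∀ s : ℂ, σ < s.re → IsL a W s (f s)

open Pool.Agent.V11291.GS

theorem norm_ev {a : UP S → Fin (n + 1) → ℂ} (W : Fin r → Fin (n + 1) → ℤ) {c : ℝ}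
    (h : ∀ p j, (p.1 : ℝ) ^ (-c) ≤ ‖a p j‖ ∧ ‖a p j‖ ≤ (p.1 : ℝ) ^ c) (p : UP S) (i : Fin r) :
    ‖ev a W p i‖ ≤ ((p.1 : ℕ) : ℝ) ^ (|c| * ∑ i, ∑ j, |(W i j : ℝ)|) := by
  have hp2 : (2 : ℝ) ≤ ((p.1 : ℕ) : ℝ) := by exact_mod_cast p.1.2.two_le
  have hp0 : (0 : ℝ) < ((p.1 : ℕ) : ℝ) := by linarith
  have hterm : ∀ j, ‖a p j ^ W i j‖ ≤ ((p.1 : ℕ) : ℝ) ^ (|c| * |(W i j : ℝ)|) := by
    intro j
    obtain ⟨h1, h2⟩ := h p j
    have ha : 0 < ‖a p j‖ := lt_of_lt_of_le (by positivity) h1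
    rw [norm_zpow, ← Real.rpow_intCast]
    have h3 : Real.log ‖a p j‖ ≤ |c| * Real.log ((p.1 : ℕ) : ℝ) := by
      have := Real.log_le_log ha h2
      rw [Real.log_rpow hp0] at this
      refine this.trans (mul_le_mul_of_nonneg_right (le_abs_self c) (Real.log_nonneg (by linarith)))
    have h4 : -(|c| * Real.log ((p.1 : ℕ) : ℝ)) ≤ Real.log ‖a p j‖ := by
      have h5 := Real.log_le_log (by positivity) h1
      rw [Real.log_rpow hp0] at h5
      have h6 : -(|c| * Real.log ((p.1 : ℕ) : ℝ)) ≤ -c * Real.log ((p.1 : ℕ) : ℝ) := by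
        have := mul_le_mul_of_nonneg_right (le_abs_self c)
          (Real.log_nonneg (by linarith : (1 : ℝ) ≤ ((p.1 : ℕ) : ℝ)))
        linarith
      exact h6.trans h5
    rw [Real.rpow_def_of_pos ha, Real.rpow_def_of_pos hp0]
    refine Real.exp_le_exp.2 ((le_abs_self _).trans ?_)
    rw [abs_mul]
    calc _ ≤ (|c| * Real.log ((p.1 : ℕ) : ℝ)) * |(W i j : ℝ)| :=
          mul_le_mul_of_nonneg_right (abs_le.2 ⟨h4, h3⟩) (abs_nonneg _)
      _ = _ := by ring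
  unfold ev
  rw [norm_prod]
  calc ∏ j, ‖a p j ^ W i j‖ ≤ ∏ j, ((p.1 : ℕ) : ℝ) ^ (|c| * |(W i j : ℝ)|) :=
        Finset.prod_le_prod (fun _ _ => norm_nonneg _) fun j _ => hterm j
    _ = ((p.1 : ℕ) : ℝ) ^ (∑ j, |c| * |(W i j : ℝ)|) := (Real.rpow_sum_of_pos hp0 _ _).symm
    _ ≤ _ := by
      refine Real.rpow_le_rpow_of_exponent_le (by linarith) ?_
      rw [← Finset.mul_sum]
      refine mul_le_mul_of_nonneg_left ?_ (abs_nonneg c)
      exact Finset.single_le_sum (f := fun i => ∑ j, |(W i j : ℝ)|)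
        (fun i _ => Finset.sum_nonneg fun j _ => abs_nonneg _) (Finset.mem_univ i)

theorem exists_ep {a : UP S → Fin (n + 1) → ℂ} (W : Fin r → Fin (n + 1) → ℤ) (h : Poly a) :
    ∃ c : ℝ, ∀ σ : ℝ, 1 + c < σ → EP (fun p : UP S => (p.1 : ℕ)) (ev a W) c σ := by
  obtain ⟨c, hc⟩ := h
  refine ⟨|c| * ∑ i, ∑ j, |(W i j : ℝ)|, fun σ hσ => ⟨fun p => p.1.2.two_le, fun t ht => ?_,
    mul_nonneg (abs_nonneg c) (Finset.sum_nonneg fun i _ => Finset.sum_nonneg fun j _ =>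
      abs_nonneg _), norm_ev W hc, hσ⟩⟩
  exact (Nat.Primes.summable_rpow.2 (by linarith : -t < -1)).comp_injective
    (Subtype.val_injective (p := fun p : Nat.Primes => p ∉ S))

theorem gauss_eq (a : UP S → Fin (n + 1) → ℂ) (W : Fin r → Fin (n + 1) → ℤ) (A T : ℝ) :
    gauss a W A T = G (xx fun p : UP S => (p.1 : ℕ))
      (cA (xx fun p : UP S => (p.1 : ℕ)) (cc (ev a W)) A) T := by
  unfold gauss G
  rw [← tsum_mul_left]
  refine tsum_congr fun q => ?_
  have hp0 : (0 : ℝ) < ((q.1.1 : ℕ) : ℝ) := by exact_mod_cast q.1.1.2.pos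
  have h1 : ((q.1.1 : ℕ) : ℝ) ^ (A * (q.2 + 1)) =
      Real.exp (A * xx (fun p : UP S => (p.1 : ℕ)) q) := by
    rw [Real.rpow_def_of_pos hp0]
    congr 1
    unfold xx
    ring
  have h2 : ((q.2 : ℂ) + 1) ≠ 0 := by exact_mod_cast q.2.succ_ne_zero
  unfold cA cc kr tr
  rw [h1]
  unfold xx
  push_cast
  field_simp

theorem sector_eq (A : ℝ) : Sector A = Q A := rfl

theorem expansion_iff (a : UP S → Fin (n + 1) → ℂ) (W : Fin r → Fin (n + 1) → ℤ) (A : ℝ)
    (Z : Finset ℂ) (m : ℂ → ℤ) : Expansion a W A Z m ↔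
      Ex (xx fun p : UP S => (p.1 : ℕ)) (cc (ev a W)) A Z m := by
  unfold Expansion Ex
  simp only [gauss_eq]

theorem isL_iff {a : UP S → Fin (n + 1) → ℂ} {W : Fin r → Fin (n + 1) → ℤ} {c σ : ℝ}
    (E : EP (fun p : UP S => (p.1 : ℕ)) (ev a W) c σ) {s : ℂ} (hs : σ ≤ s.re) (y : ℂ) :
    IsL a W s y ↔ Complex.exp (ll (xx fun p : UP S => (p.1 : ℕ)) (cc (ev a W)) s) = y := by
  have h1 := E.hasProd hs
  unfold IsL factor
  constructor
  · intro h
    exact h1.unique h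
  · rintro rfl
    exact h1

/-- **Theorem.** Let `a` be polynomially bounded Satake parameters of `GSp_{2n}` outside `S`, and `W` the weights of a
representation `ρ` of `GSpin_{2n+1}(ℂ)` of dimension `r`.

(0) There is `σ₁` such that for all `σ₀ ≥ σ₁` the following holds. The Euler product `L_S(s, π, ρ)` converges for
`Re s > σ₀`, its values are not zero.

(1) For `A ≥ 0` and all finite divisors in the sector `|Im s| < Re s + A`, `Re s ≤ σ₀`: `L_S(s, π, ρ)` has a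
meromorphic continuation to the union of the sector and `Re s > σ₀` with this divisor if and only if
`G_A(T) = -∑ m(β) exp((β + A)² T) + O(exp(ε T))` for every `ε > 0`.

(2) `L_S(s, π, ρ)` has a meromorphic continuation to `ℂ` if and only if for every `A ≥ 0` the Gaussian sum `G_A(T)`
has such an expansion with some finite divisor; it suffices to have this for arbitrarily large `A`.

(3) If `f` is a meromorphic continuation of `L_S(s, π, ρ)` to `ℂ`, then for every `A ≥ 0` the set `Z` of the zeros and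
poles of `f` in the sector `|Im s| < Re s + A` is finite, contained in `Re s ≤ σ₀`, and `G_A(T)` has the expansion in
(1) with `m(β)` the order of `f` at `β`, `β ∈ Z`. -/
theorem result {n r : ℕ} {S : Finset Nat.Primes} (a : UP S → Fin (n + 1) → ℂ) (ha : Poly a)
    (W : Fin r → Fin (n + 1) → ℤ) :
    ∃ σ₁ : ℝ, ∀ σ₀ : ℝ, σ₁ ≤ σ₀ →
    (∀ s : ℂ, σ₀ < s.re → ∃ y : ℂ, y ≠ 0 ∧ IsL a W s y) ∧
    (∀ A : ℝ, 0 ≤ A → ∀ (Z : Finset ℂ) (m : ℂ → ℤ), InSector σ₀ A Z →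
      (ContinuesWith a W σ₀ A Z m ↔ Expansion a W A Z m)) ∧
    ((∃ f : ℂ → ℂ, IsContinuation a W f) ↔
      ∀ A : ℝ, 0 ≤ A → ∃ (Z : Finset ℂ) (m : ℂ → ℤ), InSector σ₀ A Z ∧ Expansion a W A Z m) ∧
    ((∃ f : ℂ → ℂ, IsContinuation a W f) ↔
      ∀ A₀ : ℝ, ∃ A : ℝ, A₀ ≤ A ∧ 0 ≤ A ∧
        ∃ (Z : Finset ℂ) (m : ℂ → ℤ), InSector σ₀ A Z ∧ Expansion a W A Z m) ∧
    ∀ f : ℂ → ℂ, IsContinuation a W f → ∀ A : ℝ, 0 ≤ A →
      ∃ Z : Finset ℂ, (∀ β : ℂ, β ∈ Z ↔ β ∈ Sector A ∧ meromorphicOrderAt f β ≠ 0) ∧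
        InSector σ₀ A Z ∧ Expansion a W A Z fun β => (meromorphicOrderAt f β).untop₀ := by
  obtain ⟨c, hc⟩ := exists_ep W ha
  refine ⟨c + 2, fun σ₀ hσ => ?_⟩
  have E := hc σ₀ (by linarith)
  have hplane : ∀ f : ℂ → ℂ, IsContinuation a W f → ∀ A : ℝ, 0 ≤ A →
      ∃ Z : Finset ℂ, (∀ β : ℂ, β ∈ Z ↔ β ∈ Sector A ∧ meromorphicOrderAt f β ≠ 0) ∧
        InSector σ₀ A Z ∧ Expansion a W A Z fun β => (meromorphicOrderAt f β).untop₀ := by
    rintro f ⟨h1, σ, h2⟩ A hA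
    obtain ⟨Z, h3, h4, h5⟩ := E.gd.plane_ex h1 (σ' := max σ σ₀) (fun s hs => by
      have h6 := h2 s ((le_max_left _ _).trans_lt hs)
      exact ((isL_iff E ((le_max_right _ _).trans hs.le) _).1 h6).symm) hA
    exact ⟨Z, h3, h4, (expansion_iff a W A Z _).2 h5⟩
  have hback : (∀ A₀ : ℝ, ∃ A : ℝ, A₀ ≤ A ∧ 0 ≤ A ∧
      ∃ (Z : Finset ℂ) (m : ℂ → ℤ), InSector σ₀ A Z ∧ Expansion a W A Z m) →
      ∃ f : ℂ → ℂ, IsContinuation a W f := by
    intro h
    obtain ⟨f, h1, h2⟩ := E.gd.plane fun A₀ => by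
      obtain ⟨A, h1, h2, Z, m, h3, h4⟩ := h A₀
      exact ⟨A, h1, h2, Z, m, h3, (expansion_iff a W A Z m).1 h4⟩
    exact ⟨f, h1, σ₀, fun s hs => (isL_iff E hs.le _).2 (h2 s hs).symm⟩
  refine ⟨fun s hs => ⟨_, Complex.exp_ne_zero _, (isL_iff E hs.le _).2 rfl⟩,
    fun A hA Z m hZ => ?_, ⟨?_, fun h => hback fun A₀ => ?_⟩, ⟨?_, hback⟩, hplane⟩
  · rw [expansion_iff, ← E.gd.crit hA m hZ]
    constructor
    · rintro ⟨H, h1, h2⟩
      exact ⟨H, h1, fun s hs => (isL_iff E hs.le _).1 (h2 s hs)⟩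
    · rintro ⟨H, h1, h2⟩
      exact ⟨H, h1, fun s hs => (isL_iff E hs.le _).2 (h2 s hs)⟩
  · rintro ⟨f, hf⟩ A hA
    obtain ⟨Z, -, h2, h3⟩ := hplane f hf A hA
    exact ⟨Z, _, h2, h3⟩
  · exact ⟨max A₀ 0, le_max_left _ _, le_max_right _ _, h _ (le_max_right _ _)⟩
  · rintro ⟨f, hf⟩ A₀
    obtain ⟨Z, -, h2, h3⟩ := hplane f hf (max A₀ 0) (le_max_right _ _)
    exact ⟨max A₀ 0, le_max_left _ _, le_max_right _ _, Z, _, h2, h3⟩

end Pool.Agent.Results.MP_eea520_nt.GaussianPrimeSums
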