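import Pool.Agent.V1167.GL.Mer4
import Pool.Agent.V1167.GL.CM

/-!
# Meromorphic continuation of the L-functions of `GSp(2n)`: the linear criterion

Let `π` be an automorphic representation of `GSp_{2n}(𝔸)`, unramified at the primes `p ∉ S`, with Satake classes
`A_p` in `^LG = GSpin_{2n+1}(ℂ)`, and let `ρ` be a representation of `^LG` of dimension `r`. The class `A_p` is given
by an element `(a_{p,0}, ..., a_{p,n})` of the maximal torus `(ℂ^×)^{n+1}` of `^LG`, `ρ` by its weights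
`w_1, ..., w_r ∈ ℤ^{n+1}`: the eigenvalues of `ρ(A_p)` are `∏_j a_{p,j}^{w_{i,j}}`. Nothing is used about `π` except
that the parameters are polynomially bounded, `p^{-c} ≤ |a_{p,j}| ≤ p^c`, which is known for every automorphic `π`
(Langlands). So in some half plane `Re s > σ₁` we have an absolutely convergent Dirichlet series

`L_S(s, π, ρ) = ∑ b_n n^{-s}`.

For real `A ≥ 0` and `T > 0` consider the absolutely convergent Gaussian sum of the coefficients

`G_A(T) = (4πT)^{-1/2} ∑_n b_n (log n) n^A exp(-(log n)² / (4T))`.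

(1) Let `A, θ ≥ 0`, and let `Z` be a finite set of points in the region `Re (s + A)² > θ`, `Re s > -A` (for `θ = 0`
this is the sector `|Im s| < Re s + A`). Then `L_S(s, π, ρ)` has a meromorphic continuation to the region which is
holomorphic outside `Z` IF AND ONLY IF there are polynomials `P_β`, `β ∈ Z`, with

`G_A(T) = ∑_{β ∈ Z} T P_β(T) exp((β + A)² T) + O(exp((θ + ε) T))`, `T → ∞`, for every `ε > 0`.

In particular (`Z` empty) it is holomorphic in the region if and only if `G_A(T) = O(exp((θ + ε) T))` for every `ε > 0`.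

(2) `L_S(s, π, ρ)` has a meromorphic continuation to `ℂ` (the question) IF AND ONLY IF for every `A ≥ 0`
(equivalently: for arbitrarily large `A`) the sum `G_A(T)` has such an expansion with `θ = 0` and some finite set `Z`.

(3) It has an entire continuation if and only if for every `A ≥ 0` (equivalently: for arbitrarily large `A`)
`G_A(T) = O(exp(ε T))` for every `ε > 0`.

The criterion `MP_eea520_nt.GaussianPrimeSums` concerns sums over prime powers, i.e. the logarithm of the L-function; in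
its expansions all the zeros of the continuation occur. The sums here are linear in the L-function: only the poles
contribute. No growth condition, no functional equation, and no hypothesis on zeros is assumed.
-/

set_option autoImplicit false

namespace Pool.Agent.Results.MP_eea520_nt.LinearCriterion

open Filter Topology Set

/-- The primes outside `S`. -/
abbrev UP (S : Finset Nat.Primes) := {p : Nat.Primes // p ∉ S}

variable {n r : ℕ} {S : Finset Nat.Primes}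

/-- The parameters are polynomially bounded. -/
def Poly (a : UP S → Fin (n + 1) → ℂ) : Prop :=
  ∃ c : ℝ, ∀ p j, (p.1 : ℝ) ^ (-c) ≤ ‖a p j‖ ∧ ‖a p j‖ ≤ (p.1 : ℝ) ^ c

/-- The eigenvalues of `ρ(A_p)`: `a` are the Satake parameters, `W` the weights of `ρ`. -/
noncomputable def ev (a : UP S → Fin (n + 1) → ℂ) (W : Fin r → Fin (n + 1) → ℤ) (p : UP S)
    (i : Fin r) : ℂ := ∏ j, a p j ^ W i j

/-- The Euler factor `det(1 - ρ(A_p) p^{-s})⁻¹`. -/
noncomputable def factor (a : UP S → Fin (n + 1) → ℂ) (W : Fin r → Fin (n + 1) → ℤ) (p : UP S)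
    (s : ℂ) : ℂ := ∏ i, (1 - ev a W p i * ((p.1 : ℕ) : ℂ) ^ (-s))⁻¹

/-- `y` is the value of the Euler product `L_S(s, π, ρ)`. -/
def IsL (a : UP S → Fin (n + 1) → ℂ) (W : Fin r → Fin (n + 1) → ℤ) (s y : ℂ) : Prop :=
  HasProd (fun p : UP S => factor a W p s) y

/-- The region `Re (s + A)² > θ`, `Re s > -A`. -/
def Region (A θ : ℝ) : Set ℂ := {s | -A < s.re ∧ θ < ((s + A) ^ 2).re}

/-- The Gaussian sum `G_A(T)` of the coefficients `b_n`. -/
noncomputable def gaussCoeff (b : ℕ → ℂ) (A T : ℝ) : ℂ :=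
  ((Real.sqrt (4 * Real.pi * T))⁻¹ : ℝ) * ∑' n : ℕ, b n *
    ((Real.log n * (n : ℝ) ^ A * Real.exp (-(Real.log n ^ 2 / (4 * T))) : ℝ) : ℂ)

/-- `G_A(T) = ∑_{β ∈ Z} T P_β(T) exp((β + A)² T) + O(exp((θ + ε) T))` for every `ε > 0`. -/
def Expansion (b : ℕ → ℂ) (A θ : ℝ) (Z : Finset ℂ) (P : ℂ → Polynomial ℂ) : Prop :=
  ∀ ε : ℝ, 0 < ε → ∃ C : ℝ, ∀ᶠ T : ℝ in atTop,
    ‖gaussCoeff b A T - ∑ β ∈ Z, T * (P β).eval (T : ℂ) * Complex.exp ((β + A) ^ 2 * T)‖ ≤
      C * Real.exp ((θ + ε) * T)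

/-- `G_A(T) = O(exp((θ + ε) T))` for every `ε > 0`. -/
def GrowsAtMost (b : ℕ → ℂ) (A θ : ℝ) : Prop :=
  ∀ ε : ℝ, 0 < ε → ∃ C : ℝ, ∀ᶠ T : ℝ in atTop, ‖gaussCoeff b A T‖ ≤ C * Real.exp ((θ + ε) * T)

/-- There is such an expansion, with a finite set `Z` in the sector `|Im s| < Re s + A`, `Re s ≤ σ`, and `θ = 0`. -/
def HasExpansion (b : ℕ → ℂ) (σ A : ℝ) : Prop :=
  ∃ (Z : Finset ℂ) (P : ℂ → Polynomial ℂ), (∀ β ∈ Z, |β.im| < β.re + A ∧ β.re ≤ σ) ∧
    Expansion b A 0 Z P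

/-- `f` is a meromorphic continuation of `L_S(s, π, ρ)` to `ℂ`. -/
def IsContinuation (a : UP S → Fin (n + 1) → ℂ) (W : Fin r → Fin (n + 1) → ℤ) (f : ℂ → ℂ) : Prop :=
  MeromorphicOn f univ ∧ ∃ σ : ℝ, ∀ s : ℂ, σ < s.re → IsL a W s (f s)

open Pool.Agent.V1167.GL

theorem norm_ev {a : UP S → Fin (n + 1) → ℂ} (W : Fin r → Fin (n + 1) → ℤ) {c : ℝ}
    (h : ∀ p j, (p.1 : ℝ) ^ (-c) ≤ ‖a p j‖ ∧ ‖a p j‖ ≤ (p.1 : ℝ) ^ c) (p : UP S) (i : Fin r) :
    ‖ev a W p i‖ ≤ ((p.1 : ℕ) : ℝ) ^ (|c| * ∑ i, ∑ j, |(W i j : ℝ)|) := by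
  have hp2 : (2 : ℝ) ≤ ((p.1 : ℕ) : ℝ) := by exact_mod_cast p.1.2.two_le
  have hp0 : (0 : ℝ) < ((p.1 : ℕ) : ℝ) := by linarith
  have hterm : ∀ j, ‖a p j ^ W i j‖ ≤ ((p.1 : ℕ) : ℝ) ^ (|c| * |(W i j : ℝ)|) := by
    intro j
    obtain ⟨h1, h2⟩ := h p j
    have ha : 0 < ‖a p j‖ := lt_of_lt_of_le (by positivity) h1
    rw [norm_zpow, ← Real.rpow_intCast]
    have h3 : Real.log ‖a p j‖ ≤ |c| * Real.log ((p.1 : ℕ) : ℝ) := by
      have := Real.log_le_log ha h2
      rw [Real.log_rpow hp0] at this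
      refine this.trans (mul_le_mul_of_nonneg_right (le_abs_self c) (Real.log_nonneg (by linarith)))
    have h4 : -(|c| * Real.log ((p.1 : ℕ) : ℝ)) ≤ Real.log ‖a p j‖ := by
      have h5 := Real.log_le_log (by positivity) h1
      rw [Real.log_rpow hp0] at h5
      have h6 : -(|c| * Real.log ((p.1 : ℕ) : ℝ)) ≤ -c * Real.log ((p.1 : ℕ) : ℝ) := by
        have := mul_le_mul_of_nonneg_right (le_abs_self c)
          (Real.log_nonneg (by linarith : (1 : ℝ) ≤ ((p.1 : ℕ) : ℝ)))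
        linarith
      exact h6.trans h5
    rw [Real.rpow_def_of_pos ha, Real.rpow_def_of_pos hp0]
    refine Real.exp_le_exp.2 ((le_abs_self _).trans ?_)
    rw [abs_mul]
    calc _ ≤ (|c| * Real.log ((p.1 : ℕ) : ℝ)) * |(W i j : ℝ)| :=
          mul_le_mul_of_nonneg_right (abs_le.2 ⟨h4, h3⟩) (abs_nonneg _)
      _ = _ := by ring
  unfold ev
  rw [norm_prod]
  calc ∏ j, ‖a p j ^ W i j‖ ≤ ∏ j, ((p.1 : ℕ) : ℝ) ^ (|c| * |(W i j : ℝ)|) :=
        Finset.prod_le_prod (fun _ _ => norm_nonneg _) fun j _ => hterm j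
    _ = ((p.1 : ℕ) : ℝ) ^ (∑ j, |c| * |(W i j : ℝ)|) := (Real.rpow_sum_of_pos hp0 _ _).symm
    _ ≤ _ := by
      refine Real.rpow_le_rpow_of_exponent_le (by linarith) ?_
      rw [← Finset.mul_sum]
      refine mul_le_mul_of_nonneg_left ?_ (abs_nonneg c)
      exact Finset.single_le_sum (f := fun i => ∑ j, |(W i j : ℝ)|)
        (fun i _ => Finset.sum_nonneg fun j _ => abs_nonneg _) (Finset.mem_univ i)

open Classical in
/-- the eigenvalues, extended by zero to the primes in `S` -/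
noncomputable def al (a : UP S → Fin (n + 1) → ℂ) (W : Fin r → Fin (n + 1) → ℤ) (i : Fin r)
    (p : ℕ) : ℂ :=
  if h : ∃ hp : p.Prime, (⟨p, hp⟩ : Nat.Primes) ∉ S then ev a W ⟨⟨p, h.1⟩, h.2⟩ i else 0

lemma al_notMem (a : UP S → Fin (n + 1) → ℂ) (W : Fin r → Fin (n + 1) → ℤ) (i : Fin r)
    (p : UP S) : al a W i (p.1 : ℕ) = ev a W p i := by
  unfold al
  rw [dif_pos ⟨p.1.2, p.2⟩]
  rfl

lemma al_mem (a : UP S → Fin (n + 1) → ℂ) (W : Fin r → Fin (n + 1) → ℤ) (i : Fin r)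
    {p : Nat.Primes} (hp : p ∈ S) : al a W i (p : ℕ) = 0 := by
  unfold al
  rw [dif_neg]
  rintro ⟨_, h⟩
  exact h hp

/-- the Dirichlet coefficients -/
noncomputable def bb (a : UP S → Fin (n + 1) → ℂ) (W : Fin r → Fin (n + 1) → ℤ) (m : ℕ) : ℂ :=
  dc Finset.univ (al a W) m

lemma exists_b {a : UP S → Fin (n + 1) → ℂ} (ha : Poly a) (W : Fin r → Fin (n + 1) → ℤ) :
    ∃ σ₁ : ℝ, 0 < σ₁ ∧ ∀ s : ℂ, σ₁ < s.re →
      LSeriesSummable (bb a W) s ∧ IsL a W s (LSeries (bb a W) s) := by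
  classical
  obtain ⟨c, hc⟩ := ha
  set c' : ℝ := |c| * ∑ i, ∑ j, |(W i j : ℝ)| with hc'
  have hc0 : 0 ≤ c' := mul_nonneg (abs_nonneg c) (Finset.sum_nonneg fun i _ =>
    Finset.sum_nonneg fun j _ => abs_nonneg _)
  have hal : ∀ i, ∀ p : ℕ, p.Prime → ‖al a W i p‖ ≤ (p : ℝ) ^ c' := by
    intro i p hp
    by_cases h : (⟨p, hp⟩ : Nat.Primes) ∈ S
    · have h1 := al_mem a W i h
      change al a W i p = 0 at h1
      rw [h1, norm_zero]
      positivity
    · have h1 := al_notMem a W i ⟨⟨p, hp⟩, h⟩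
      change al a W i p = _ at h1
      rw [h1]
      exact norm_ev W hc ⟨⟨p, hp⟩, h⟩ i
  refine ⟨1 + c', by linarith, fun s hs => ?_⟩
  obtain ⟨h1, h2⟩ := dc_spec Finset.univ hc0 hal hs
  refine ⟨h1, ?_⟩
  have h3 : Function.mulSupport (fun p : Nat.Primes =>
      ∏ i, (1 - al a W i p * ((p : ℕ) : ℂ) ^ (-s))⁻¹) ⊆ {p : Nat.Primes | p ∉ S} := by
    intro p hp
    by_contra h
    apply hp
    have h' : p ∈ S := not_not.1 h
    simp [al_mem a W _ h']
  have h4 := (hasProd_subtype_iff_of_mulSupport_subset h3).2 h2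
  change HasProd (fun p : UP S => factor a W p s) (LSeries (bb a W) s)
  refine h4.congr_fun fun p => ?_
  unfold factor
  simp only [Function.comp_apply]
  refine Finset.prod_congr rfl fun i _ => ?_
  rw [al_notMem]

lemma isL_iff {a : UP S → Fin (n + 1) → ℂ} {W : Fin r → Fin (n + 1) → ℤ} {s : ℂ}
    (h : IsL a W s (LSeries (bb a W) s)) (y : ℂ) : IsL a W s y ↔ y = LSeries (bb a W) s :=
  ⟨fun h1 => h1.unique h, fun h1 => h1 ▸ h⟩

lemma hyp_eq {A θ : ℝ} (hθ : 0 ≤ θ) : Hyp A θ = Region A θ := by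
  ext s
  change s + A ∈ Pool.Agent.V11291.GS.W θ ↔ -A < s.re ∧ θ < ((s + A) ^ 2).re
  rw [Pool.Agent.V11291.GS.W_iff hθ, Complex.add_re, Complex.ofReal_re]
  constructor
  · rintro ⟨h1, h2⟩
    exact ⟨by linarith, h2⟩
  · rintro ⟨h1, h2⟩
    exact ⟨by linarith, h2⟩

lemma hasP_iff (b : ℕ → ℂ) (σ A : ℝ) : HasExpansion b σ A ↔ HasP b σ A 0 := by
  unfold HasExpansion HasP
  rw [Hyp_zero]
  rfl

/-- **Theorem.** Let `a` be polynomially bounded Satake parameters of `GSp_{2n}` outside `S`, and `W` the weights of a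
representation `ρ` of `GSpin_{2n+1}(ℂ)` of dimension `r`.

There are a sequence `b` and `σ₁ > 0` such that `∑ b_m m^{-s}` converges absolutely and represents the Euler product
`L_S(s, π, ρ)` for `Re s > σ₁`, and for all `σ > σ₁`:

(1) For `A, θ ≥ 0` and every finite set `Z` in the region `Re (s + A)² > θ`, `Re s > -A`, with `Re β ≤ σ` for `β ∈ Z`:
`L_S(s, π, ρ)` has a meromorphic continuation to the region, analytic outside `Z`, if and only if there are polynomials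
`P_β` with `G_A(T) = ∑_{β ∈ Z} T P_β(T) exp((β + A)² T) + O(exp((θ + ε) T))` for every `ε > 0`.

(2) `L_S(s, π, ρ)` has a meromorphic continuation to `ℂ` if and only if for every `A ≥ 0` there is such an expansion
(`θ = 0`) with some finite set `Z`; it suffices to have this for arbitrarily large `A`.

(3) `L_S(s, π, ρ)` has an entire continuation if and only if for every `A ≥ 0` `G_A(T) = O(exp(ε T))` for every `ε > 0`; it
suffices to have this for arbitrarily large `A`. -/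
theorem result {n r : ℕ} {S : Finset Nat.Primes} (a : UP S → Fin (n + 1) → ℂ) (ha : Poly a)
    (W : Fin r → Fin (n + 1) → ℤ) :
    ∃ (b : ℕ → ℂ) (σ₁ : ℝ), 0 < σ₁ ∧
    (∀ s : ℂ, σ₁ < s.re → LSeriesSummable b s ∧ IsL a W s (LSeries b s)) ∧
    ∀ σ : ℝ, σ₁ < σ →
    (∀ A θ : ℝ, 0 ≤ A → 0 ≤ θ → ∀ Z : Finset ℂ, (∀ β ∈ Z, β ∈ Region A θ ∧ β.re ≤ σ) →
      ((∃ F : ℂ → ℂ, MeromorphicOn F (Region A θ) ∧ (∀ s ∈ Region A θ, s ∉ Z → AnalyticAt ℂ F s) ∧
        ∀ s ∈ Region A θ, σ < s.re → IsL a W s (F s)) ↔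
        ∃ P : ℂ → Polynomial ℂ, Expansion b A θ Z P)) ∧
    [(∃ f : ℂ → ℂ, IsContinuation a W f),
      (∀ A : ℝ, 0 ≤ A → HasExpansion b σ A),
      (∀ A₀ : ℝ, ∃ A : ℝ, A₀ ≤ A ∧ 0 ≤ A ∧ HasExpansion b σ A)].TFAE ∧
    [(∃ f : ℂ → ℂ, Differentiable ℂ f ∧ IsContinuation a W f),
      (∀ A : ℝ, 0 ≤ A → GrowsAtMost b A 0),
      (∀ A₀ : ℝ, ∃ A : ℝ, A₀ ≤ A ∧ 0 ≤ A ∧ GrowsAtMost b A 0)].TFAE := by
  obtain ⟨σ₁, h0, hb⟩ := exists_b ha W
  refine ⟨bb a W, σ₁, h0, hb, fun σ hσ => ?_⟩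
  have hσ0 : 0 < σ := h0.trans hσ
  have hs : LSeriesSummable (bb a W) σ := (hb (σ : ℂ) (by simpa using hσ)).1
  refine ⟨fun A θ hA hθ Z hZ => ?_, ?_, ?_⟩
  · have h1 := dir_mer_Z hσ0 hs hA hθ (Z := Z) (by rw [hyp_eq hθ]; exact hZ)
    rw [hyp_eq hθ] at h1
    refine Iff.trans (exists_congr fun F => and_congr Iff.rfl (and_congr Iff.rfl ?_)) h1
    refine forall_congr' fun s => forall_congr' fun _ => forall_congr' fun hs => ?_
    exact isL_iff (hb s (hσ.trans hs)).2 _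
  · have h1 := dir_mer_plane hσ0 hs
    have e1 : (∃ f : ℂ → ℂ, IsContinuation a W f) ↔
        ∃ F : ℂ → ℂ, MeromorphicOn F univ ∧ ∃ σ' : ℝ, ∀ s : ℂ, σ' < s.re → F s = LSeries (bb a W) s := by
      constructor
      · rintro ⟨f, h2, σ', h3⟩
        refine ⟨f, h2, max σ' σ₁, fun s hs => ?_⟩
        exact (isL_iff (hb s ((le_max_right _ _).trans_lt hs)).2 _).1
          (h3 s ((le_max_left _ _).trans_lt hs))
      · rintro ⟨f, h2, σ', h3⟩
        refine ⟨f, h2, max σ' σ₁, fun s hs => ?_⟩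
        exact (isL_iff (hb s ((le_max_right _ _).trans_lt hs)).2 _).2
          (h3 s ((le_max_left _ _).trans_lt hs))
    simp only [hasP_iff]
    rw [e1]
    tfae_have 1 ↔ 2 := h1.out 0 2
    tfae_have 1 ↔ 3 := h1.out 0 3
    tfae_finish
  · have hsum : ∀ t : ℝ, σ₁ < t → LSeriesSummable (bb a W) t := fun t ht =>
      (hb (t : ℂ) (by simpa using ht)).1
    obtain ⟨h1, h2⟩ := dir_entire h0.le hsum
    have e1 : (∃ f : ℂ → ℂ, Differentiable ℂ f ∧ IsContinuation a W f) ↔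
        ∃ F : ℂ → ℂ, Differentiable ℂ F ∧ ∀ s : ℂ, σ₁ < s.re → F s = LSeries (bb a W) s := by
      constructor
      · rintro ⟨f, h3, -, σ', h4⟩
        refine ⟨f, h3, ?_⟩
        refine Pool.Agent.V11291.GS.ident (isOpen_lt continuous_const Complex.continuous_re)
          (convex_halfSpace_re_gt _) (R := max σ' σ₁) (fun s _ => h3 s)
          (fun s hs => ls_diff hsum hs) fun t ht => ?_
        have e1 : σ₁ < ((t : ℝ) : ℂ).re := by
          rw [Complex.ofReal_re]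
          exact (le_max_right _ _).trans_lt ht
        have e2 : σ' < ((t : ℝ) : ℂ).re := by
          rw [Complex.ofReal_re]
          exact (le_max_left _ _).trans_lt ht
        exact ⟨e1, (isL_iff (hb _ e1).2 _).1 (h4 _ e2)⟩
      · rintro ⟨f, h3, h4⟩
        exact ⟨f, h3, fun z _ => (h3.analyticAt z).meromorphicAt, σ₁, fun s hs =>
          (isL_iff (hb s hs).2 _).2 (h4 s hs)⟩
    rw [e1]
    tfae_have 1 ↔ 2 := h1
    tfae_have 1 ↔ 3 := h2
    tfae_finish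

end Pool.Agent.Results.MP_eea520_nt.LinearCriterion
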