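import Pool.Agent.V11333.PureReal

/-!
# Meromorphic continuation of the L-functions of `GSp(2n)` from the real axis by bounds from one side

Let `K` be a number field (for example `K = ℚ`), `π` an automorphic representation of `GSp_{2n}` over `K` which
is unitary and has trivial central character, and `ρ` a finite-dimensional representation of the dual group
`GSpin_{2n+1}(ℂ)`, for example the spin representation of degree `2^n`. The dual torus is `(ℂ^×)^{n+1}`, with
coordinates `b = (b_0; b_1, …, b_n)`; the Weyl group is generated by the permutations of `b_1, …, b_n` and the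
changes `b_i → b_i⁻¹`, `b_0 → b_0 b_i`; a weight is a vector `k ∈ ℤ^{n+1}`, with the character
`b^k = ∏ b_i^{k_i}`; `ρ` has the weights `k_1, …, k_m`, and the eigenvalues of `ρ(A_v)` are `b^{k_1}, …, b^{k_m}` for
the Satake parameters `b = b(v)` of `π_v`. The spin representation has the weights with `k_0 = 1` and
`k_i ∈ {0, 1}` for `i ≥ 1`. The central character is trivial if and only if `b_0² b_1 ⋯ b_n = 1`. If `π_v` is
unitary, then the complex conjugate of `b` is conjugate to `b⁻¹` under the Weyl group (if `π_v` is tempered, it is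
equal to `b⁻¹`). Let `q_v` be the norm of `v`, `|b(v)^{k_j}| ≤ q_v^w` for all `v` in the set `S` of primes at which `π` is
unramified and all `j` (such a `w` exists by Langlands; `w = 0` in the tempered case), and

`L_S(s, π, ρ) = ∏_{v ∈ S} det (1 - ρ(A_v) q_v^{-s})⁻¹`, `Re s > w + 1`, `c = w + 1/2`,

`P(x) = ∏_{v ∈ S, q_v ≤ x} |det (1 - ρ(A_v) q_v^{-c})|`.

Let `0 ≤ al`, and let a divisor on the real axis be given: finitely many real points `c + β`, `0 < β ≤ 1/2`, and
orders `m(β) ∈ ℤ`. A zero or a pole of `L_S` at `c + β` contributes to `log P(x)` the main term `m(β) Ein(β log x)`,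
`Ein(z) = ∫_0^z (e^t - 1) dt/t = ∑_{k ≥ 1} z^k / (k k!)`, which is about `m(β) x^β / (β log x)`. Let `R(x)` be
`log P(x)` minus all main terms. The theorem:

1. The following are equivalent:
   (a) `∫_0^∞ |R(e^t)| e^{-ut} dt < ∞` for all `u > al`;
   (b) `L_S(s) = F(s) ∏_β (s - c - β)^{m(β)}` at the real `s > w + 1` for a function `F` which is analytic at all REAL
       points `s > c + al`, and `∫_0^∞ max (R(e^t), 0) e^{-ut} dt < ∞` for all `u > al`;
   (c) `L_S(s) = F(s)⁻¹ ∏_β (s - c - β)^{m(β)}` with `F` of the same kind, and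
       `∫_0^∞ max (-R(e^t), 0) e^{-ut} dt < ∞` for all `u > al`.
   If they hold, then `L_S(s)` has a meromorphic continuation to the half plane `Re s > c + al` and it is
   `G(s) ∏_β (s - c - β)^{m(β)}` with `G` holomorphic and without zeros there: the divisor of `L_S` in this half
   plane is exactly the given one.
2. In (b) the bound `R(x) ≤ C x^{al + ε}` and in (c) the bound `R(x) ≥ -C x^{al + ε}` for all `ε > 0` suffice.
3. The weights of the spin representation form a system of weights of this kind, for every `n`.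

Nothing is assumed about `π` except the properties of the Satake parameters above, so the theorem holds for all
Euler products of this shape.
-/

set_option autoImplicit false

namespace Pool.Agent.Results.MP_eea520_nt.OneSidedContinuation

open Filter Topology Set NumberField IsDedekindDomain MeasureTheory

variable {K : Type} [Field K] [NumberField K] {n d : ℕ}

/-- The norm `q_v`. -/
noncomputable def nrm (v : HeightOneSpectrum (𝓞 K)) : ℕ := Ideal.absNorm v.asIdeal

/-- The value `b^k = ∏ b_i^{k_i}` of the character `k` of the dual torus of `GSp_{2n}` at `b`. -/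
noncomputable def chr (k : Fin (n + 1) → ℤ) (b : Fin (n + 1) → ℂ) : ℂ := ∏ i, b i ^ k i

/-- The action of the element of the Weyl group given by a set `I` of changes of signs and a permutation `σ`:
the new `b_0` is `b_0 ∏_{i ∈ I} b_i`, and the new `b_i` is `b_{σ i}`, or its inverse if `σ i ∈ I`. -/
noncomputable def weyl (σ : Equiv.Perm (Fin n)) (I : Finset (Fin n)) (b : Fin (n + 1) → ℂ) :
    Fin (n + 1) → ℂ :=
  Fin.cons (b 0 * ∏ i ∈ I, b i.succ) fun i => if σ i ∈ I then (b (σ i).succ)⁻¹ else b (σ i).succ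

/-- `k_1, …, k_d` is stable under the Weyl group, in the weak sense that at conjugate points of the dual torus the
characters `k_1, …, k_d` have the same values, up to a permutation. This is the case for the weights of every
finite-dimensional representation of `GSpin_{2n+1}(ℂ)`. -/
def IsWeightSystem (k : Fin d → Fin (n + 1) → ℤ) : Prop :=
  ∀ b : Fin (n + 1) → ℂ, (∀ i, b i ≠ 0) → ∀ (σ : Equiv.Perm (Fin n)) (I : Finset (Fin n)),
    ∃ e : Equiv.Perm (Fin d), ∀ j, chr (k (e j)) (weyl σ I b) = chr (k j) b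

/-- The Satake parameters of an unramified unitary representation of `GSp_{2n}` with trivial central
character: `b_0² b_1 ⋯ b_n = 1` and the complex conjugate of `b` is conjugate to `b⁻¹` under the Weyl group. -/
def IsUnitary (b : Fin (n + 1) → ℂ) : Prop :=
  b 0 ^ 2 * ∏ i : Fin n, b i.succ = 1 ∧ ∃ (σ : Equiv.Perm (Fin n)) (I : Finset (Fin n)),
    (fun i => (starRingEnd ℂ) (b i)) = weyl σ I fun i => (b i)⁻¹

variable {S : Set (HeightOneSpectrum (𝓞 K))}

/-- The Euler factor `det (1 - ρ(A_v) q_v^{-s})⁻¹ = ∏_j (1 - b(v)^{k_j} q_v^{-s})⁻¹`. -/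
noncomputable def factor (k : Fin d → Fin (n + 1) → ℤ) (b : S → Fin (n + 1) → ℂ) (v : S) (s : ℂ) : ℂ :=
  ∏ j, (1 - chr (k j) (b v) * (nrm v.1 : ℂ) ^ (-s))⁻¹

/-- `log P(x)`, the sum of `log |∏_j (1 - b(v)^{k_j} q_v^{-c})|`, `c = w + 1/2`, over the `v ∈ S` with `q_v ≤ x`. -/
noncomputable def logP (w : ℝ) (k : Fin d → Fin (n + 1) → ℤ) (b : S → Fin (n + 1) → ℂ) (x : ℝ) : ℝ :=
  ∑ᶠ (v : S) (_ : (nrm v.1 : ℝ) ≤ x),
    Real.log ‖∏ j, (1 - chr (k j) (b v) * (nrm v.1 : ℂ) ^ (-((w + 1 / 2 : ℝ) : ℂ)))‖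

/-- `Ein(z) = ∫_0^z (e^t - 1) dt/t = ∑_{k ≥ 0} z^{k+1} / ((k+1) (k+1)!)`. -/
noncomputable def Ein (z : ℝ) : ℝ := ∑' k : ℕ, z ^ (k + 1) / ((k + 1) * (k + 1).factorial)

/-- `R(x)`, the difference of `log P(x)` and the main terms `m(β) Ein(β log x)`, `β ∈ T`. -/
noncomputable def rest (w : ℝ) (k : Fin d → Fin (n + 1) → ℤ) (b : S → Fin (n + 1) → ℂ) (T : Finset ℝ)
    (m : ℝ → ℤ) (x : ℝ) : ℝ :=
  logP w k b x - ∑ β ∈ T, m β * Ein (β * Real.log x)

/-- The function `∏_{β ∈ T} (s - c - β)^{m(β)}`, `c = w + 1/2`. -/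
noncomputable def divisor (w : ℝ) (T : Finset ℝ) (m : ℝ → ℤ) (s : ℂ) : ℂ :=
  ∏ β ∈ T, (s - (w + 1 / 2 : ℝ) - β) ^ m β

/-- `L_S(s) = F(s) ∏ (s - c - β)^{m(β)}` at the real `s > w + 1` for a function `F` which is analytic at all real
points `x > c + al`, `c = w + 1/2`. -/
def RealContinues (w : ℝ) (k : Fin d → Fin (n + 1) → ℤ) (b : S → Fin (n + 1) → ℂ) (al : ℝ)
    (T : Finset ℝ) (m : ℝ → ℤ) : Prop :=
  ∃ F : ℂ → ℂ, (∀ x : ℝ, w + 1 / 2 + al < x → AnalyticAt ℂ F x) ∧
    ∀ x : ℝ, w + 1 < x → HasProd (fun v : S => factor k b v x) (F x * divisor w T m x)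

/-- The same with `F(s)⁻¹` in the place of `F(s)`. -/
def RealContinuesInv (w : ℝ) (k : Fin d → Fin (n + 1) → ℤ) (b : S → Fin (n + 1) → ℂ) (al : ℝ)
    (T : Finset ℝ) (m : ℝ → ℤ) : Prop :=
  ∃ F : ℂ → ℂ, (∀ x : ℝ, w + 1 / 2 + al < x → AnalyticAt ℂ F x) ∧
    ∀ x : ℝ, w + 1 < x → HasProd (fun v : S => factor k b v x) ((F x)⁻¹ * divisor w T m x)

/-- `L_S(s)` has the meromorphic continuation `G(s) ∏ (s - c - β)^{m(β)}` to `Re s > c + al` with a holomorphic
function `G` without zeros there, `c = w + 1/2`. -/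
def Continues (w : ℝ) (k : Fin d → Fin (n + 1) → ℤ) (b : S → Fin (n + 1) → ℂ) (al : ℝ)
    (T : Finset ℝ) (m : ℝ → ℤ) : Prop :=
  ∃ G : ℂ → ℂ, (∀ s : ℂ, w + 1 / 2 + al < s.re → DifferentiableAt ℂ G s ∧ G s ≠ 0) ∧
    ∀ s : ℂ, w + 1 < s.re → HasProd (fun v : S => factor k b v s) (G s * divisor w T m s)

/-- `∫_0^∞ |f(t)| e^{-ut} dt < ∞` for all `u > al`. -/
def LaplaceConverges (f : ℝ → ℝ) (al : ℝ) : Prop :=
  ∀ u : ℝ, al < u → IntegrableOn (fun t : ℝ => f t * Real.exp (-(u * t))) (Ioi 0)

/-- The weights of the spin representation: `k_0 = 1`, and `k_i = 1` for `i` in a set `J ⊆ {1, …, n}` and `0`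
otherwise. -/
noncomputable def spin (J : Finset (Fin n)) : Fin (n + 1) → ℤ :=
  Fin.cons 1 fun i => if i ∈ J then 1 else 0

section tools

theorem chr_conj (k : Fin (n + 1) → ℤ) (b : Fin (n + 1) → ℂ) :
    (starRingEnd ℂ) (chr k b) = chr k fun i => (starRingEnd ℂ) (b i) := by
  unfold chr
  rw [map_prod]
  exact Finset.prod_congr rfl fun i _ => map_zpow₀ _ _ _

theorem weyl_inv (b : Fin (n + 1) → ℂ) (h : b 0 ^ 2 * ∏ i : Fin n, b i.succ = 1) :
    (fun i => (b i)⁻¹) = weyl (Equiv.refl _) Finset.univ b := by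
  have h0 : b 0 ≠ 0 := by
    intro h0
    rw [h0] at h
    simp at h
  funext i
  refine Fin.cases ?_ (fun i => ?_) i
  · unfold weyl
    rw [Fin.cons_zero]
    refine inv_eq_of_mul_eq_one_right ?_
    rw [← mul_assoc, ← sq]
    exact h
  · unfold weyl
    rw [Fin.cons_succ]
    simp

theorem ne_zero_of (b : Fin (n + 1) → ℂ) (h : b 0 ^ 2 * ∏ i : Fin n, b i.succ = 1) : ∀ i, b i ≠ 0 := by
  have h0 : b 0 ≠ 0 := by
    intro h0
    rw [h0] at h
    simp at h
  have h1 : ∏ i : Fin n, b i.succ ≠ 0 := by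
    intro h1
    rw [h1] at h
    simp at h
  intro i
  refine Fin.cases h0 (fun i => ?_) i
  exact Finset.prod_ne_zero_iff.mp h1 i (Finset.mem_univ i)

/-- the multiset of eigenvalues is stable under complex conjugation -/
theorem conj_stable {k : Fin d → Fin (n + 1) → ℤ} (hk : IsWeightSystem k) {b : Fin (n + 1) → ℂ}
    (hb : IsUnitary b) : ∃ e : Equiv.Perm (Fin d), ∀ j,
      (starRingEnd ℂ) (chr (k (e j)) b) = chr (k j) b := by
  obtain ⟨h1, σ, I, h2⟩ := hb
  have h0 := ne_zero_of b h1
  obtain ⟨e1, he1⟩ := hk b h0 (Equiv.refl _) Finset.univ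
  rw [← weyl_inv b h1] at he1
  obtain ⟨e2, he2⟩ := hk (fun i => (b i)⁻¹) (fun i => inv_ne_zero (h0 i)) σ I
  rw [← h2] at he2
  refine ⟨e1.trans e2, fun j => ?_⟩
  rw [chr_conj, Equiv.trans_apply, he2, he1]

/-- the eigenvalues form a system with real traces -/
theorem pure_of {k : Fin d → Fin (n + 1) → ℤ} (hk : IsWeightSystem k) {b : S → Fin (n + 1) → ℂ}
    (hb : ∀ v, IsUnitary (b v)) {w : ℝ} (hw : ∀ v j, ‖chr (k j) (b v)‖ ≤ (nrm v.1 : ℝ) ^ w) :
    Pool.Agent.V11333.PR.Pure w fun v j => chr (k j) (b v) := by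
  refine ⟨hw, fun v r => ?_⟩
  obtain ⟨e, he⟩ := conj_stable hk (hb v)
  rw [← Complex.conj_eq_iff_im, map_sum, ← Equiv.sum_comp e]
  refine Finset.sum_congr rfl fun j _ => ?_
  rw [map_pow, he]

theorem spin_chr (J : Finset (Fin n)) (b : Fin (n + 1) → ℂ) :
    chr (spin J) b = b 0 * ∏ i ∈ J, b i.succ := by
  classical
  unfold chr spin
  rw [Fin.prod_univ_succ, Fin.cons_zero, zpow_one]
  congr 1
  simp only [Fin.cons_succ]
  rw [← Finset.prod_filter_mul_prod_filter_not Finset.univ (fun i => i ∈ J)]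
  have h1 : ∏ i ∈ Finset.univ.filter (fun i => ¬ i ∈ J),
      b i.succ ^ (if i ∈ J then (1 : ℤ) else 0) = 1 := by
    refine Finset.prod_eq_one fun i hi => ?_
    rw [if_neg (Finset.mem_filter.mp hi).2, zpow_zero]
  rw [h1, mul_one]
  have h2 : Finset.univ.filter (fun i => i ∈ J) = J := by
    ext i
    simp
  rw [h2]
  refine Finset.prod_congr rfl fun i hi => ?_
  rw [if_pos hi, zpow_one]

/-- the weights of the spin representation -/
theorem spin_system (e : Fin d ≃ Finset (Fin n)) : IsWeightSystem fun j => spin (e j) := by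
  classical
  intro b hb σ I
  -- the set with the value at the conjugate point
  have key : ∀ J : Finset (Fin n), chr (spin J) (weyl σ I b) =
      chr (spin (symmDiff I (J.map σ.toEmbedding))) b := by
    intro J
    rw [spin_chr, spin_chr]
    unfold weyl
    rw [Fin.cons_zero]
    simp only [Fin.cons_succ]
    have h1 : ∏ i ∈ J, (if σ i ∈ I then (b (σ i).succ)⁻¹ else b (σ i).succ) =
        ∏ i ∈ J.map σ.toEmbedding, (if i ∈ I then (b i.succ)⁻¹ else b i.succ) := by
      rw [Finset.prod_map]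
      rfl
    rw [h1, mul_assoc]
    congr 1
    set J' := J.map σ.toEmbedding with hJ'
    have h2 : ∏ i ∈ J', (if i ∈ I then (b i.succ)⁻¹ else b i.succ) =
        (∏ i ∈ J' ∩ I, b i.succ)⁻¹ * ∏ i ∈ J' \ I, b i.succ := by
      rw [← Finset.prod_inter_mul_prod_sdiff J' I]
      congr 1
      · rw [← Finset.prod_inv_distrib]
        exact Finset.prod_congr rfl fun i hi => if_pos (Finset.mem_inter.mp hi).2
      · exact Finset.prod_congr rfl fun i hi => if_neg (Finset.mem_sdiff.mp hi).2
    have h3 : ∏ i ∈ I, b i.succ = (∏ i ∈ J' ∩ I, b i.succ) * ∏ i ∈ I \ J', b i.succ := by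
      rw [← Finset.prod_inter_mul_prod_sdiff I J', Finset.inter_comm]
    have h4 : ∏ i ∈ J' ∩ I, b i.succ ≠ 0 := Finset.prod_ne_zero_iff.mpr fun i _ => hb _
    have h5 : ∏ i ∈ symmDiff I J', b i.succ =
        (∏ i ∈ I \ J', b i.succ) * ∏ i ∈ J' \ I, b i.succ := by
      rw [symmDiff_def, Finset.sup_eq_union, Finset.prod_union]
      exact Finset.disjoint_left.mpr fun i h6 h7 =>
        (Finset.mem_sdiff.mp h6).2 (Finset.mem_sdiff.mp h7).1
    rw [h2, h3, h5]
    field_simp
  -- the permutation of the sets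
  set f : Finset (Fin n) ≃ Finset (Fin n) :=
    (Equiv.finsetCongr σ).trans
      ⟨fun J => symmDiff I J, fun J => symmDiff I J, fun J => symmDiff_symmDiff_cancel_left I J,
        fun J => symmDiff_symmDiff_cancel_left I J⟩ with hf
  have hfe : ∀ J, f J = symmDiff I (J.map σ.toEmbedding) := fun J => rfl
  refine ⟨(e.trans f.symm).trans e.symm, fun j => ?_⟩
  have h6 : e (((e.trans f.symm).trans e.symm) j) = f.symm (e j) := by simp
  beta_reduce
  rw [h6, key, ← hfe, Equiv.apply_symm_apply]

end tools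

/-- **Theorem.** (A) Let `K` be a number field, `S` a set of primes of `K`, and for all `v ∈ S` let `b(v)` be the
Satake parameters of an unramified unitary representation of `GSp_{2n}` with trivial central character. Let
`k_1, …, k_d` be the weights of a representation `ρ` of the dual group, `|b(v)^{k_j}| ≤ q_v^w`, `al ≥ 0`, `T` a finite set
of real numbers `0 < β ≤ 1/2`, and `m : T → ℤ`.

(1) The following are equivalent: the Laplace integral of `R(e^t)` converges absolutely for all `u > al`;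
`L_S(s)/∏ (s - c - β)^{m(β)}` has an analytic continuation along the real axis to all `s > c + al` and the Laplace
integral of `max (R(e^t), 0)` converges for all `u > al`; its inverse has an analytic continuation along the real
axis to all `s > c + al` and the Laplace integral of `max (-R(e^t), 0)` converges for all `u > al`. In this case
`L_S` has a meromorphic continuation `G(s) ∏ (s - c - β)^{m(β)}` to `Re s > c + al`, `G` holomorphic, without zeros.
(2) This continuation exists if `L_S(s)/∏ (s - c - β)^{m(β)}` has an analytic continuation along the real axis to all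
`s > c + al` and `R(x) ≤ C x^{al + ε}` for all `ε > 0`, and if its inverse has such a continuation and
`R(x) ≥ -C x^{al + ε}` for all `ε > 0`.

(B) The `2^n` weights of the spin representation satisfy the condition on `k_1, …, k_d`. -/
theorem result :
    (∀ (n d : ℕ) (k : Fin d → Fin (n + 1) → ℤ), IsWeightSystem k →
      ∀ (S : Set (HeightOneSpectrum (𝓞 K))) (b : S → Fin (n + 1) → ℂ) (w : ℝ),
        (∀ v, IsUnitary (b v)) → (∀ v j, ‖chr (k j) (b v)‖ ≤ (nrm v.1 : ℝ) ^ w) →
      ∀ (al : ℝ) (T : Finset ℝ) (m : ℝ → ℤ), 0 ≤ al → (∀ β ∈ T, 0 < β ∧ β ≤ 1 / 2) →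
        List.TFAE [
          LaplaceConverges (fun t => rest w k b T m (Real.exp t)) al,
          RealContinues w k b al T m ∧
            LaplaceConverges (fun t => max (rest w k b T m (Real.exp t)) 0) al,
          RealContinuesInv w k b al T m ∧
            LaplaceConverges (fun t => max (-rest w k b T m (Real.exp t)) 0) al] ∧
        (LaplaceConverges (fun t => rest w k b T m (Real.exp t)) al → Continues w k b al T m) ∧
        (((RealContinues w k b al T m ∧ ∀ ε : ℝ, 0 < ε → ∃ C : ℝ, ∀ᶠ x : ℝ in atTop,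
            rest w k b T m x ≤ C * x ^ (al + ε)) ∨
          (RealContinuesInv w k b al T m ∧ ∀ ε : ℝ, 0 < ε → ∃ C : ℝ, ∀ᶠ x : ℝ in atTop,
            -(C * x ^ (al + ε)) ≤ rest w k b T m x)) → Continues w k b al T m)) ∧
    ∀ (n : ℕ) (e : Fin (2 ^ n) ≃ Finset (Fin n)), IsWeightSystem fun j => spin (e j) := by
  refine ⟨fun n d k hk S b w hb hw al T m hal hT => ?_, fun n e => spin_system e⟩
  exact Pool.Agent.V11333.PR.main (pure_of hk hb hw) hal hT

end Pool.Agent.Results.MP_eea520_nt.OneSidedContinuation
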